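import Pool.Agent.N594.CT.Stm2
import Pool.Agent.N594.CT.Fin

/-!
# CT/TR (helper50): the transfer if there are few bad sequences
-/

set_option autoImplicit false

open Finset
open scoped Classical

namespace Pool.Agent.N50.CT.TR

open Pool.Agent.N442.ES Pool.Agent.N442.LP Pool.Agent.N594.CT

/-- a position of a bad sequence in a blow-up -/
def Bdd (t m : ℕ) (k' T n : ℕ) (D : Finset (Finset (Fin n))) (y : Fin k' → Fin T → Fin n) : Prop :=
  ∃ e : Fin m → Fin k' × Fin T, Function.Injective e ∧ (fun a => y (e a).1 (e a).2) ∈ badm t m D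

/-- few bad sequences, few blow-ups with a bad sequence -/
theorem count_bad (t m k T n : ℕ) (D : Finset (Finset (Fin n))) :
    ((univ : Finset (Fin k → Fin T → Fin n)).filter (Bdd t m k T n D)).card ≤
      (k * T) ^ m * ((badm t m D).card * n ^ (k * T - m)) := by
  rw [curry_card]
  set E : Finset (Fin m → Fin k × Fin T) := univ.filter Function.Injective with hE
  have h1 : (((univ : Finset (Fin k → Fin T → Fin n)).filter (Bdd t m k T n D)).image
      (fun y => fun p : Fin k × Fin T => y p.1 p.2)) ⊆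
      E.biUnion fun e => univ.filter fun w : Fin k × Fin T → Fin n => w ∘ e ∈ badm t m D := by
    intro w hw
    obtain ⟨y, hy, rfl⟩ := mem_image.mp hw
    obtain ⟨e, he, hc⟩ := (mem_filter.mp hy).2
    rw [mem_biUnion]
    exact ⟨e, mem_filter.mpr ⟨mem_univ _, he⟩, mem_filter.mpr ⟨mem_univ _, hc⟩⟩
  refine (card_le_card h1).trans (card_biUnion_le.trans ?_)
  have h2 : ∀ e ∈ E, (univ.filter fun w : Fin k × Fin T → Fin n => w ∘ e ∈ badm t m D).card ≤
      (badm t m D).card * n ^ (k * T - m) := by
    intro e he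
    have h3 := pull_le (V := Fin n) e (mem_filter.mp he).2
      (univ.filter fun w : Fin k × Fin T → Fin n => w ∘ e ∈ badm t m D) (badm t m D)
      (fun w hw => (mem_filter.mp hw).2)
    rw [Fintype.card_prod, Fintype.card_fin, Fintype.card_fin, Fintype.card_fin,
      Fintype.card_fin] at h3
    exact h3
  refine (sum_le_sum h2).trans ?_
  rw [sum_const, smul_eq_mul]
  refine Nat.mul_le_mul_right _ ?_
  have h4 : E.card ≤ (univ : Finset (Fin m → Fin k × Fin T)).card := card_le_card (filter_subset _ _)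
  refine h4.trans (le_of_eq ?_)
  rw [card_univ, Fintype.card_fun, Fintype.card_prod, Fintype.card_fin, Fintype.card_fin,
    Fintype.card_fin]

/-- the same with densities -/
theorem count_bad_real (t m k T n : ℕ) (hn : 0 < n) (D : Finset (Finset (Fin n))) :
    (((univ : Finset (Fin k → Fin T → Fin n)).filter (Bdd t m k T n D)).card : ℝ) ≤
      ((k * T : ℕ) : ℝ) ^ m * (((badm t m D).card : ℝ) / (n : ℝ) ^ m) * (n : ℝ) ^ (k * T) := by
  have hn' : (0 : ℝ) < n := by exact_mod_cast hn
  rcases Nat.lt_or_ge (k * T) m with h | h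
  · have h0 : ((univ : Finset (Fin k → Fin T → Fin n)).filter (Bdd t m k T n D)) = ∅ := by
      ext y
      simp only [mem_filter, mem_univ, true_and, notMem_empty, iff_false]
      rintro ⟨e, he, -⟩
      have := Fintype.card_le_of_injective e he
      rw [Fintype.card_prod, Fintype.card_fin, Fintype.card_fin, Fintype.card_fin] at this
      omega
    rw [h0, card_empty, Nat.cast_zero]
    positivity
  · have h1 := (Nat.cast_le (α := ℝ)).2 (count_bad t m k T n D)
    rw [Nat.cast_mul, Nat.cast_mul, Nat.cast_pow, Nat.cast_pow] at h1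
    refine h1.trans (le_of_eq ?_)
    have h2 : (n : ℝ) ^ (k * T) = (n : ℝ) ^ (k * T - m) * (n : ℝ) ^ m := by
      rw [← pow_add]; congr 1; omega
    rw [h2]
    field_simp

/-- the pattern of a blow-up without bad sequence is in the class -/
theorem cls_of' {t k n s k' : ℕ} {D : Finset (Finset (Fin n))}
    {X : Finset (Finset (Fin k'))} {y : Fin k' → Fin (k * (t - 1) + 1) → Fin n}
    (hy : ∀ f : Fin k' → Fin (k * (t - 1) + 1), (fun i => y i (f i)) ∈ SR s D X)
    (hi : ∀ i, Function.Injective (y i))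
    (hb : ¬ Bdd t (k * (t - 1) + 1) k' (k * (t - 1) + 1) n D y) :
    Cls s k t (fun Z : Finset (Fin k') => Z.card = s ∧ Z ∈ X) := by
  intro σ
  have hSR : ∀ f : Fin k' → Fin (k * (t - 1) + 1), Function.Injective (fun i => y i (f i)) ∧
      ∀ e : Finset (Fin k'), e.card = s → (e.image (fun i => y i (f i)) ∈ D ↔ e ∈ X) := fun f =>
    (mem_filter.mp (hy f)).2
  obtain ⟨v, hv⟩ : ∃ v : Fin (k * (t - 1) + 1) → Fin n, v = fun a => y (σ a) a := ⟨_, rfl⟩
  have hinj : Function.Injective v := by
    intro a b hab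
    by_contra hne
    rw [hv] at hab
    by_cases hs : σ a = σ b
    · simp only [hs] at hab
      exact hne (hi _ hab)
    · have h1 := (hSR (fun i => if i = σ a then a else b)).1
      have h2 : (fun i => y i ((fun i => if i = σ a then a else b) i)) (σ a) =
          (fun i => y i ((fun i => if i = σ a then a else b) i)) (σ b) := by
        simp only [if_pos, if_neg (Ne.symm hs)]
        exact hab
      exact hs (h1 h2)
  have hnb : v ∉ badm t (k * (t - 1) + 1) D := by
    intro h
    refine hb ⟨fun a => (σ a, a), fun a b hab => (Prod.mk.inj hab).2, ?_⟩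
    rw [hv] at h
    exact h
  have hJ : ∃ J : Finset (Fin (k * (t - 1) + 1)), J.card = t ∧ ∀ X' ⊆ J, X'.image v ∉ D := by
    by_contra hcon
    push Not at hcon
    exact hnb (mem_filter.mpr ⟨mem_univ _, hinj, hcon⟩)
  obtain ⟨J, hJc, hJi⟩ := hJ
  refine ⟨J, hJc, ?_⟩
  rintro e he hec ⟨hc, hX⟩
  have hσ : Set.InjOn σ e := by
    have : (e.image σ).card = e.card := by
      rw [hec, ← hc]
      congr 1
      ext x
      simp
    exact card_image_iff.mp this
  obtain ⟨f, hf⟩ : ∃ f : Fin k' → Fin (k * (t - 1) + 1), f = fun i =>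
    if h : ∃ a, a ∈ e ∧ σ a = i then h.choose else ⟨0, by omega⟩ := ⟨_, rfl⟩
  have hfe : ∀ a ∈ e, f (σ a) = a := by
    intro a ha
    have h : ∃ b, b ∈ e ∧ σ b = σ a := ⟨a, ha, rfl⟩
    rw [hf]
    simp only [dif_pos h]
    exact hσ h.choose_spec.1 ha h.choose_spec.2
  have h1 := ((hSR f).2 (e.image σ) (by
    rw [← hc]
    congr 1
    ext x
    simp)).2 (by
    have h6 := hX
    rw [image_inst _ (instDecidableEqFin k') σ e] at h6
    exact h6)
  have h2 : (e.image σ).image (fun i => y i (f i)) = e.image v := by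
    rw [image_image]
    refine image_congr fun a ha => ?_
    simp only [Function.comp_apply, hfe a (mem_coe.mp ha), hv]
  rw [h2] at h1
  exact hJi e he h1

/-- **CT/TR** -/
theorem main : S_TR := by
  intro s k t hs hk hA η hη
  have hkap : 0 ≤ kap k s := by
    unfold kap
    have h1 : (1 : ℝ) ≤ (k : ℝ) ^ (s - 1) := one_le_pow₀ (by exact_mod_cast hk)
    have h2 : 1 / (k : ℝ) ^ (s - 1) ≤ 1 := by
      rw [div_le_one (by linarith)]
      exact h1
    linarith
  obtain ⟨δ, hδ, N, hN⟩ := main_r s (kap k s) (fun _ _ => True)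
    (fun k' T n D y => Bdd t (k * (t - 1) + 1) k' T n D y)
    (fun n D => ((badm t (k * (t - 1) + 1) D).card : ℝ) / (n : ℝ) ^ (k * (t - 1) + 1)) hkap hs
    (fun k' T => ⟨((k' * T : ℕ) : ℝ) ^ (k * (t - 1) + 1), by positivity, fun n hn D =>
      count_bad_real t (k * (t - 1) + 1) k' T n hn D⟩)
    (fun k' hk' => ⟨k * (t - 1) + 1, Nat.succ_pos _, fun n D _ X y hy hi hX => by
      by_contra hb
      have h := QR_of hk' hA (cls_of' hy hi hb)
      linarith⟩) hη
  refine ⟨δ, hδ, max N 1, fun n hn D h1 h2 => ?_⟩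
  have hn1 : (0 : ℝ) < n := by
    exact_mod_cast lt_of_lt_of_le one_pos ((le_max_right _ _).trans hn)
  refine hN n ((le_max_left _ _).trans hn) D h1 trivial ?_
  rw [div_le_iff₀ (by positivity)]
  exact h2

end Pool.Agent.N50.CT.TR
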